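import Mathlib
import Pool.Agent.MGP.Stmts

/-!
# Squad MGP: row WIN (`f` is constant in the window)
-/

set_option autoImplicit false

namespace Pool.Agent.MGP.H95

open Pool.Agent.MGP

theorem arith_q {N E E2 v q : ℕ} (hE2 : 2 * E2 ≤ E) (hEN : 2 * E ≤ N) (hE : 1 ≤ E)
    (hv : N ≤ v + E2) (hq : q * v ≤ (N - 1) ^ 2) : q ≤ N + E := by
  by_contra hcon
  have h1 : N + E + 1 ≤ q := by omega
  have h2 : (N + E + 1) * v ≤ q * v := Nat.mul_le_mul_right v h1
  have h3 : (N - 1) ^ 2 ≤ N ^ 2 := Nat.pow_le_pow_left (Nat.sub_le N 1) 2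
  have h4 : (N + E + 1) * v ≤ N ^ 2 := h2.trans (hq.trans h3)
  have a1 : (2 : ℤ) * E2 ≤ E := by exact_mod_cast hE2
  have a2 : (2 : ℤ) * E ≤ N := by exact_mod_cast hEN
  have a3 : (1 : ℤ) ≤ E := by exact_mod_cast hE
  have a4 : (N : ℤ) ≤ v + E2 := by exact_mod_cast hv
  have a5 : ((N : ℤ) + E + 1) * v ≤ (N : ℤ) ^ 2 := by exact_mod_cast h4
  have a6 : (0 : ℤ) ≤ E2 := by positivity
  have b1 : 0 ≤ ((N : ℤ) + E + 1) * (v + E2 - N) :=
    mul_nonneg (by omega) (by omega)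
  have b2 : 0 ≤ ((N : ℤ) - 2 * E) * (E + 1 - E2) := mul_nonneg (by omega) (by omega)
  have b3 : 0 ≤ ((E : ℤ) + 1) * (E - 2 * E2) := mul_nonneg (by omega) (by omega)
  have b4 : 0 ≤ (E : ℤ) * (E - 2 * E2) := mul_nonneg (by omega) (by omega)
  nlinarith

theorem win (hCTR : CtrStmt) : WinStmt := by
  intro G _ f N E κ hf hF hN hE hEN hjmp
  obtain ⟨M, hM⟩ := hN
  -- step 1
  have h1 : ∀ j : ℕ, N - 1 + 2 * j ≤ N + E + 2 → f (N - 1 + 2 * j) = f (N - 1) := by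
    intro j
    induction j with
    | zero => intro _; rfl
    | succ j ih =>
      intro hj
      have h2 := hjmp (N - 1 + 2 * j) ⟨M - 1 + j, by omega⟩ (by omega) (by omega)
      have h3 : N - 1 + 2 * (j + 1) = N - 1 + 2 * j + 2 := by omega
      rw [h3, ← h2]
      exact ih (by omega)
  have h4 : f (N + 1) = f (N - 1) := by
    have h5 := h1 1 (by omega)
    have h6 : N - 1 + 2 * 1 = N + 1 := by omega
    rw [h6] at h5
    exact h5
  have h7 : ∀ v : ℕ, Odd v → N ≤ v + 1 → v ≤ N + E + 2 → f v = f (N + 1) := by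
    intro v hv hv1 hv2
    obtain ⟨a, ha⟩ := hv
    have h8 : v = N - 1 + 2 * (a + 1 - M) := by omega
    rw [h4, h8]
    exact h1 _ (by omega)
  have hκ : κ = f (N + 1) * f (N + 1) := by
    have h9 := hCTR G f N κ hf hF ⟨M, hM⟩ (by omega) 1 odd_one (by omega)
    rw [← h9, ← h4]
  refine ⟨hκ, ?_⟩
  intro v hv hv1 hv2
  by_cases hvN : N ≤ v + 1
  · exact h7 v hv hvN (by omega)
  · have hvpos : 0 < v := by omega
    have hq1 : (N - 1) ^ 2 / v * v ≤ (N - 1) ^ 2 := Nat.div_mul_le_self _ _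
    have hq2 : (N - 1) ^ 2 < ((N - 1) ^ 2 / v + 1) * v := by
      have h10 := Nat.lt_mul_div_succ ((N - 1) ^ 2) hvpos
      rw [Nat.mul_comm] at h10
      exact h10
    have hqle : (N - 1) ^ 2 / v ≤ N + E :=
      arith_q (E2 := E / 2) (v := v) (by omega) hEN (by omega) hv1 hq1
    obtain ⟨u, hu, hu1, hu2⟩ : ∃ u : ℕ, Odd u ∧ (N - 1) ^ 2 / v + 1 ≤ u ∧
        u ≤ (N - 1) ^ 2 / v + 2 := by
      rcases Nat.even_or_odd ((N - 1) ^ 2 / v) with h | h
      · exact ⟨(N - 1) ^ 2 / v + 1, h.add_one, le_refl _, by omega⟩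
      · refine ⟨(N - 1) ^ 2 / v + 2, ?_, by omega, le_refl _⟩
        obtain ⟨c, hc⟩ := h
        exact ⟨c + 1, by omega⟩
    have hlow : (N - 1) ^ 2 < u * v := lt_of_lt_of_le hq2 (Nat.mul_le_mul_right v hu1)
    have hup : u * v < (N + 1) ^ 2 := by
      have h11 : u * v ≤ ((N - 1) ^ 2 / v + 2) * v := Nat.mul_le_mul_right v hu2
      have h12 : ((N - 1) ^ 2 / v + 2) * v = (N - 1) ^ 2 / v * v + 2 * v := by ring
      have h13 : (N - 1) ^ 2 ≤ N ^ 2 := Nat.pow_le_pow_left (Nat.sub_le N 1) 2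
      have h14 : (N + 1) ^ 2 = N ^ 2 + 2 * N + 1 := by ring
      omega
    have hfu := hf u v hu hv
    rw [hF (u * v) (hu.mul hv) hlow hup] at hfu
    have huN : N ≤ u + 1 := by
      by_contra hcon
      have h15 : u ≤ N - 1 := by omega
      have h16 : u * v ≤ (N - 1) * (N - 1) := Nat.mul_le_mul h15 (by omega)
      rw [← pow_two] at h16
      omega
    have h17 := h7 u hu huN (by omega)
    rw [h17, hκ] at hfu
    exact (mul_left_cancel hfu).symm

end Pool.Agent.MGP.H95
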